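import Mathlib

/-!
# MbD DerExt : existence and uniqueness of derivations in characteristic zero (module U_DerExt)

`exists_derivation`.  Let `P = MvPolynomial σ A` act on `L` by `aeval v` (injective).  `L` is
formally smooth over `P`: `P → FractionRing P` is a localisation
(`Algebra.FormallySmooth.of_isLocalization`), `FractionRing P → L` is a field extension in
characteristic zero (`Algebra.FormallySmooth.of_perfectField`), compose
(`Algebra.FormallySmooth.comp`).  Let `B = TrivSqZeroExt L L` be a `P`-algebra through the ring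
homomorphism `c ↦ c + d c • ε` on `A`, `X s ↦ v s + a s • ε`.  The kernel of `B → L` has square
zero, so the identity `L → L = B ⧸ ker` lifts to a `P`-algebra map `L → B`
(`Algebra.FormallySmooth.exists_lift` or `comp_surjective`), whose second component is the
derivation wanted (see `Derivation` and `TrivSqZeroExt`, `derivationToSquareZeroOfLift`).

`derivation_eq_zero_of_isAlgebraic`.  For `t : L` let `p` be its minimal polynomial over `F`;
`0 = D (p t) = p'(t) • D t` as `D` kills the coefficients, and `p'(t) ≠ 0` (separable, char zero).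
-/

set_option autoImplicit false

open MvPolynomial

namespace MbD

/-- Dual numbers over `L` with only the ring structure (no algebra instances). -/
def TSq (L : Type*) : Type _ := TrivSqZeroExt L L

noncomputable instance TSq.commRing (L : Type*) [Field L] : CommRing (TSq L) :=
  inferInstanceAs (CommRing (TrivSqZeroExt L L))

/-- the first projection -/
noncomputable def TSq.fst (L : Type*) [Field L] : TSq L →+* L where
  toFun x := TrivSqZeroExt.fst x
  map_one' := rfl
  map_mul' _ _ := rfl
  map_zero' := rfl
  map_add' _ _ := rfl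

/-- the second component -/
def TSq.snd {L : Type*} (x : TSq L) : L := TrivSqZeroExt.snd x

theorem TSq.ext' {L : Type*} [Field L] {x y : TSq L} (h1 : TSq.fst L x = TSq.fst L y)
    (h2 : TSq.snd x = TSq.snd y) : x = y := TrivSqZeroExt.ext h1 h2

theorem TSq.snd_add' {L : Type*} [Field L] (x y : TSq L) :
    TSq.snd (x + y) = TSq.snd x + TSq.snd y := rfl

theorem TSq.snd_mul' {L : Type*} [Field L] (x y : TSq L) :
    TSq.snd (x * y) = TSq.fst L x * TSq.snd y + TSq.fst L y * TSq.snd x := by
  have h := TrivSqZeroExt.snd_mul (R := L) (M := L) x y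
  simp only [MulOpposite.smul_eq_mul_unop, MulOpposite.unop_op, smul_eq_mul] at h
  calc TSq.snd (x * y) = TrivSqZeroExt.fst x * TrivSqZeroExt.snd y
        + TrivSqZeroExt.snd x * TrivSqZeroExt.fst y := h
    _ = _ := by rw [mul_comm (TrivSqZeroExt.snd x)]; rfl

/-- the element `a + b ε` -/
def TSq.mk {L : Type*} [Field L] (a b : L) : TSq L := ((a, b) : L × L)

theorem TSq.fst_mk {L : Type*} [Field L] (a b : L) : TSq.fst L (TSq.mk a b) = a := rfl

theorem TSq.snd_mk {L : Type*} [Field L] (a b : L) : TSq.snd (TSq.mk a b) = b := rfl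

/-- the ring homomorphism `c ↦ c + d c ε` -/
noncomputable def TSq.ofDer {A L : Type*} [CommRing A] [Field L] [Algebra A L]
    (d : Derivation ℤ A L) : A →+* TSq L where
  toFun c := TSq.mk (algebraMap A L c) (d c)
  map_one' := by
    apply TSq.ext'
    · rw [TSq.fst_mk, map_one, map_one]
    · rw [TSq.snd_mk, Derivation.map_one_eq_zero]; rfl
  map_mul' x y := by
    apply TSq.ext'
    · rw [TSq.fst_mk, map_mul, map_mul (TSq.fst L), TSq.fst_mk, TSq.fst_mk]
    · rw [TSq.snd_mul', TSq.snd_mk, TSq.snd_mk, TSq.snd_mk, TSq.fst_mk, TSq.fst_mk,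
        Derivation.leibniz, Algebra.smul_def, Algebra.smul_def]
  map_zero' := by
    apply TSq.ext'
    · rw [TSq.fst_mk, map_zero, map_zero]
    · rw [TSq.snd_mk, map_zero]; rfl
  map_add' x y := by
    apply TSq.ext'
    · rw [TSq.fst_mk, map_add, map_add (TSq.fst L), TSq.fst_mk, TSq.fst_mk]
    · rw [TSq.snd_add', TSq.snd_mk, TSq.snd_mk, TSq.snd_mk, map_add]

theorem TSq.ker_sq (L : Type*) [Field L] : IsNilpotent (RingHom.ker (TSq.fst L)) := by
  refine ⟨2, ?_⟩
  rw [pow_two, Ideal.zero_eq_bot, eq_bot_iff, Ideal.mul_le]
  intro x hx y hy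
  rw [RingHom.mem_ker] at hx hy
  rw [Ideal.mem_bot]
  apply TSq.ext'
  · rw [map_mul, hx, zero_mul, map_zero]
  · rw [TSq.snd_mul', hx, hy, zero_mul, zero_mul, add_zero]; rfl

/-- A characteristic zero field extension is formally smooth. -/
theorem formallySmooth_of_charZero (K L : Type*) [Field K] [Field L] [CharZero K] [Algebra K L] :
    Algebra.FormallySmooth K L := by
  obtain ⟨s, hs⟩ := exists_isTranscendenceBasis K L
  have halg := hs.isAlgebraic_field
  have : CharZero (IntermediateField.adjoin K (Set.range ((↑) : s → L))) :=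
    charZero_of_injective_algebraMap
      (algebraMap K (IntermediateField.adjoin K (Set.range ((↑) : s → L)))).injective
  have : Algebra.IsSeparable (IntermediateField.adjoin K (Set.range ((↑) : s → L))) L :=
    inferInstance
  exact .of_algebraicIndependent_of_isSeparable hs.1

theorem exists_derivation {A L : Type*} [CommRing A] [IsDomain A] [Field L] [CharZero L]
    [Algebra A L] {σ : Type*} (v : σ → L) (hv : AlgebraicIndependent A v)
    (d : Derivation ℤ A L) (a : σ → L) :
    ∃ D : Derivation ℤ L L, (∀ c : A, D (algebraMap A L c) = d c) ∧ ∀ s, D (v s) = a s := by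
  classical
  let : Algebra (MvPolynomial σ A) L := (aeval v : MvPolynomial σ A →ₐ[A] L).toRingHom.toAlgebra
  have hmap : ∀ p : MvPolynomial σ A, algebraMap (MvPolynomial σ A) L p = aeval v p := fun p => rfl
  have hinj : Function.Injective (algebraMap (MvPolynomial σ A) L) := hv
  have : FaithfulSMul (MvPolynomial σ A) L := (faithfulSMul_iff_algebraMap_injective _ _).2 hinj
  let := FractionRing.liftAlgebra (MvPolynomial σ A) L
  have := FractionRing.isScalarTower_liftAlgebra (MvPolynomial σ A) L
  have : CharZero (FractionRing (MvPolynomial σ A)) :=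
    (algebraMap (FractionRing (MvPolynomial σ A)) L).charZero
  have : Algebra.FormallySmooth (FractionRing (MvPolynomial σ A)) L :=
    formallySmooth_of_charZero _ _
  have : Algebra.FormallySmooth (MvPolynomial σ A) (FractionRing (MvPolynomial σ A)) :=
    .of_isLocalization (nonZeroDivisors _)
  have : Algebra.FormallySmooth (MvPolynomial σ A) L :=
    .comp _ (FractionRing (MvPolynomial σ A)) _
  let φ : MvPolynomial σ A →+* TSq L :=
    MvPolynomial.eval₂Hom (TSq.ofDer d) (fun s => TSq.mk (v s) (a s))
  let : Algebra (MvPolynomial σ A) (TSq L) := φ.toAlgebra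
  have hφ : ∀ p, TSq.fst L (φ p) = aeval v p := by
    intro p
    have : (TSq.fst L).comp φ = (aeval v : MvPolynomial σ A →ₐ[A] L).toRingHom := by
      apply MvPolynomial.ringHom_ext
      · intro r
        simp [φ, TSq.ofDer, TSq.fst_mk]
      · intro s
        simp [φ, TSq.fst_mk]
    exact congrArg (fun f => f p) this
  let g : TSq L →ₐ[MvPolynomial σ A] L :=
    { TSq.fst L with commutes' := fun p => hφ p }
  have hg : Function.Surjective g := fun x => ⟨TSq.mk x 0, rfl⟩
  have hg' : IsNilpotent (RingHom.ker (g : TSq L →+* L)) := TSq.ker_sq L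
  let ψ : L →ₐ[MvPolynomial σ A] TSq L :=
    Algebra.FormallySmooth.liftOfSurjective (AlgHom.id (MvPolynomial σ A) L) g hg hg'
  have hψ : ∀ x, TSq.fst L (ψ x) = x := fun x =>
    Algebra.FormallySmooth.liftOfSurjective_apply (AlgHom.id (MvPolynomial σ A) L) g hg hg' x
  have hψφ : ∀ p : MvPolynomial σ A, ψ (aeval v p) = φ p := fun p => ψ.commutes p
  let D : Derivation ℤ L L := Derivation.mk'
    (AddMonoidHom.toIntLinearMap
      { toFun := fun x => TSq.snd (ψ x)
        map_zero' := by rw [map_zero]; rfl
        map_add' := fun x y => by rw [map_add, TSq.snd_add'] })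
    (fun x y => by
      change TSq.snd (ψ (x * y)) = x • TSq.snd (ψ y) + y • TSq.snd (ψ x)
      rw [map_mul, TSq.snd_mul', hψ, hψ, smul_eq_mul, smul_eq_mul])
  have hD : ∀ x, D x = TSq.snd (ψ x) := fun x => rfl
  refine ⟨D, ?_, ?_⟩
  · intro c
    have h1 : algebraMap A L c = aeval v (C c : MvPolynomial σ A) := by simp
    rw [hD, h1, hψφ]
    simp [φ, TSq.ofDer, TSq.snd_mk]
  · intro s
    have h1 : v s = aeval v (X s : MvPolynomial σ A) := by simp
    rw [hD, h1, hψφ]
    simp [φ, TSq.snd_mk]

theorem derivation_aeval {F L M : Type*} [Field F] [Field L]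
    [Algebra F L] [AddCommGroup M] [Module L M]
    (D : Derivation ℤ L M) (h : ∀ c : F, D (algebraMap F L c) = 0) (t : L) (p : Polynomial F) :
    D (Polynomial.aeval t p) = Polynomial.aeval t (Polynomial.derivative p) • D t := by
  induction p using Polynomial.induction_on' with
  | add p q hp hq => rw [map_add, map_add, hp, hq, Polynomial.derivative_add, map_add, add_smul]
  | monomial n c =>
    rw [Polynomial.aeval_monomial, Polynomial.derivative_monomial, Polynomial.aeval_monomial,
      Derivation.leibniz, h, smul_zero, add_zero, Derivation.leibniz_pow]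
    rw [map_mul, map_natCast, ← Nat.cast_smul_eq_nsmul L, smul_smul, smul_smul]

theorem derivation_eq_zero_of_isAlgebraic {F L M : Type*} [Field F] [CharZero F] [Field L]
    [Algebra F L] [Algebra.IsAlgebraic F L] [AddCommGroup M] [Module L M]
    (D : Derivation ℤ L M) (h : ∀ c : F, D (algebraMap F L c) = 0) (t : L) : D t = 0 := by
  have hint : IsIntegral F t := (Algebra.IsAlgebraic.isAlgebraic t).isIntegral
  have hsep : (minpoly F t).Separable := (minpoly.irreducible hint).separable
  have h1 := derivation_aeval D h t (minpoly F t)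
  rw [minpoly.aeval, map_zero] at h1
  have h2 : Polynomial.aeval t (Polynomial.derivative (minpoly F t)) ≠ 0 :=
    hsep.aeval_derivative_ne_zero (minpoly.aeval F t)
  rcases smul_eq_zero.1 h1.symm with h3 | h3
  · exact absurd h3 h2
  · exact h3

end MbD
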